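import Mathlib

open scoped ENNReal NNReal

namespace Pool.Agent.Results.MP_ca3f0d_an.NotBoundedPowTwo

/-- The quantity `|x_1|^k + ... + |x_d|^k`. -/
noncomputable def kPow (d k : ℕ) (m : Fin d → ℤ) : ℝ := ∑ i, |(m i : ℝ)| ^ k

/-- The set `S_{d,k}(r)` of lattice points with `|m_1|^k + ... + |m_d|^k = r^k`. -/
def sphere (d k : ℕ) (r : ℝ) : Set (Fin d → ℤ) := {m | kPow d k m = r ^ k}

/-- The admissible radii: `r > 0`, `r^k` a natural number, and `S_{d,k}(r)` has positive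
cardinality. -/
def admissible (d k : ℕ) : Set ℝ :=
  {r | 0 < r ∧ (∃ n : ℕ, r ^ k = n) ∧ 0 < (sphere d k r).ncard}

/-- The `k`-spherical average `A_r f (x)`. -/
noncomputable def avg (d k : ℕ) (r : ℝ) (f : (Fin d → ℤ) → ℂ) (x : Fin d → ℤ) : ℂ :=
  ((sphere d k r).ncard : ℂ)⁻¹ * ∑ᶠ m ∈ sphere d k r, f (x - m)

/-- The `k`-spherical maximal function `A_* f (x)`, the supremum over all admissible radii. -/
noncomputable def maxFn (d k : ℕ) (f : (Fin d → ℤ) → ℂ) (x : Fin d → ℤ) : ℝ≥0∞ :=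
  ⨆ r ∈ admissible d k, ‖avg d k r f x‖ₑ

/-- The `ℓ²(ℤ^d)` norm of a nonnegative function. -/
noncomputable def l2norm (d : ℕ) (g : (Fin d → ℤ) → ℝ≥0∞) : ℝ≥0∞ :=
  (∑' x, g x ^ 2) ^ (1 / 2 : ℝ)

/-- Boundedness of `A_*` on `ℓ²(ℤ^d)`. -/
def BoundedL2 (d k : ℕ) : Prop :=
  ∃ C : ℝ≥0, ∀ f : (Fin d → ℤ) → ℂ, l2norm d (fun x => ‖f x‖ₑ) < ⊤ →
    l2norm d (maxFn d k f) ≤ C * l2norm d (fun x => ‖f x‖ₑ)

/-! ### Arithmetic -/

theorem odd_pow (j : ℕ) (x : ℤ) (hx : Odd x) : (2 : ℤ) ^ (j + 3) ∣ x ^ (2 ^ (j + 1)) - 1 := by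
  induction j with
  | zero =>
    have := Int.eight_dvd_sq_sub_one_of_odd hx
    simpa using this
  | succ j ih =>
    have h1 : x ^ (2 ^ (j + 1 + 1)) - 1 = (x ^ (2 ^ (j + 1)) - 1) * (x ^ (2 ^ (j + 1)) + 1) := by
      ring
    rw [h1, show j + 1 + 3 = (j + 3) + 1 by ring, pow_succ]
    refine mul_dvd_mul ih ?_
    have : Odd (x ^ (2 ^ (j + 1))) := hx.pow
    obtain ⟨t, ht⟩ := this
    exact ⟨t + 1, by rw [ht]; ring⟩

theorem pow_modEq (j : ℕ) (hj : 2 ≤ j) (n : ℕ) : n ^ (2 ^ j) ≡ n % 2 [MOD 2 ^ (j + 2)] := by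
  rcases Nat.even_or_odd n with h | h
  · rw [Nat.even_iff.mp h]
    obtain ⟨t, rfl⟩ := h
    have hle : j + 2 ≤ 2 ^ j := by
      obtain ⟨i, rfl⟩ := Nat.exists_eq_add_of_le hj
      clear hj
      induction i with
      | zero => norm_num
      | succ i ih =>
        have : 2 ^ (2 + (i + 1)) = 2 * 2 ^ (2 + i) := by ring
        omega
    rw [Nat.modEq_zero_iff_dvd, show t + t = 2 * t by ring, mul_pow]
    exact Dvd.dvd.mul_right (pow_dvd_pow 2 hle) _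
  · rw [Nat.odd_iff.mp h]
    obtain ⟨i, rfl⟩ : ∃ i, j = i + 1 := ⟨j - 1, by omega⟩
    have h1 := odd_pow i (n : ℤ) (by exact_mod_cast h)
    have h2 : ((1 : ℕ) : ℤ) ≡ ((n ^ (2 ^ (i + 1)) : ℕ) : ℤ) [ZMOD ((2 ^ (i + 1 + 2) : ℕ) : ℤ)] := by
      rw [Int.modEq_iff_dvd]
      push_cast
      exact h1
    exact (Int.natCast_modEq_iff.mp h2).symm

/-- Key descent: only the trivial points. -/
theorem descent (d j : ℕ) (hj : 2 ≤ j) (hd : d < 4 * 2 ^ j) (m : ℕ) :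
    ∀ x : Fin d → ℤ, ∑ i, (x i).natAbs ^ (2 ^ j) = (2 ^ m) ^ (2 ^ j) →
      ∃ i, x = Pi.single i (2 ^ m : ℤ) ∨ x = Pi.single i (-2 ^ m : ℤ) := by
  have hk : 2 ^ j ≠ 0 := by positivity
  induction m with
  | zero =>
    intro x hx
    simp only [pow_zero, one_pow] at hx
    have hne : ∑ i, (x i).natAbs ^ (2 ^ j) ≠ 0 := by omega
    obtain ⟨i, -, hi⟩ := Finset.exists_ne_zero_of_sum_ne_zero hne
    have hsplit := Finset.add_sum_erase Finset.univ (fun i => (x i).natAbs ^ (2 ^ j))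
      (Finset.mem_univ i)
    have h0 : ∑ l ∈ Finset.univ.erase i, (x l).natAbs ^ (2 ^ j) = 0 := by omega
    have h1 : (x i).natAbs ^ (2 ^ j) = 1 := by omega
    have h1' : (x i).natAbs = 1 := by
      rwa [Nat.pow_eq_one, or_iff_left hk] at h1
    have h0' : ∀ l, l ≠ i → x l = 0 := by
      intro l hl
      have := Finset.sum_eq_zero_iff.mp h0 l (Finset.mem_erase.mpr ⟨hl, Finset.mem_univ l⟩)
      have := pow_eq_zero_iff hk |>.mp this
      exact Int.natAbs_eq_zero.mp this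
    refine ⟨i, ?_⟩
    rcases Int.natAbs_eq (x i) with h | h
    · left
      funext l
      by_cases hl : l = i
      · subst hl; rw [h, h1']; simp
      · rw [h0' l hl]; simp [hl]
    · right
      funext l
      by_cases hl : l = i
      · subst hl; rw [h, h1']; simp
      · rw [h0' l hl]; simp [hl]
  | succ m ih =>
    intro x hx
    have hmod : ∑ i, (x i).natAbs % 2 ≡ 0 [MOD 2 ^ (j + 2)] := by
      have h1 : ∑ i, (x i).natAbs ^ (2 ^ j) ≡ ∑ i, (x i).natAbs % 2 [MOD 2 ^ (j + 2)] :=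
        Nat.ModEq.sum fun i _ => pow_modEq j hj _
      refine h1.symm.trans ?_
      rw [hx]
      refine (pow_modEq j hj _).trans ?_
      have : 2 ^ (m + 1) % 2 = 0 := by
        rw [pow_succ]; exact Nat.mul_mod_left _ _
      rw [this]
    have hle : ∑ i, (x i).natAbs % 2 ≤ d := by
      calc ∑ i, (x i).natAbs % 2 ≤ ∑ _i : Fin d, 1 :=
            Finset.sum_le_sum fun i _ => by omega
        _ = d := by simp
    have hlt : ∑ i, (x i).natAbs % 2 < 2 ^ (j + 2) := by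
      have : 2 ^ (j + 2) = 4 * 2 ^ j := by ring
      omega
    have hz : ∑ i, (x i).natAbs % 2 = 0 := by
      have := Nat.ModEq.eq_of_lt_of_lt hmod hlt (by positivity)
      exact this
    have heven : ∀ i, ∃ y : ℤ, x i = 2 * y := by
      intro i
      have := Finset.sum_eq_zero_iff.mp hz i (Finset.mem_univ i)
      exact ⟨x i / 2, by omega⟩
    choose y hy using heven
    have hsum : ∑ i, (y i).natAbs ^ (2 ^ j) = (2 ^ m) ^ (2 ^ j) := by
      have h2 : ∑ i, (x i).natAbs ^ (2 ^ j) = 2 ^ (2 ^ j) * ∑ i, (y i).natAbs ^ (2 ^ j) := by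
        rw [Finset.mul_sum]
        refine Finset.sum_congr rfl fun i _ => ?_
        rw [hy i, Int.natAbs_mul, mul_pow]
        rfl
      rw [h2, pow_succ, mul_pow, mul_comm] at hx
      exact Nat.eq_of_mul_eq_mul_right (by positivity) hx
    obtain ⟨i, hi | hi⟩ := ih y hsum
    · refine ⟨i, Or.inl ?_⟩
      funext l
      rw [hy l, hi]
      by_cases hl : l = i
      · subst hl; simp; ring
      · simp [hl]
    · refine ⟨i, Or.inr ?_⟩
      funext l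
      rw [hy l, hi]
      by_cases hl : l = i
      · subst hl; simp; ring
      · simp [hl]

theorem kPow_cast (d k : ℕ) (x : Fin d → ℤ) :
    kPow d k x = ((∑ i, (x i).natAbs ^ k : ℕ) : ℝ) := by
  unfold kPow
  push_cast
  refine Finset.sum_congr rfl fun i _ => ?_
  rw [Nat.cast_natAbs]
  simp

theorem mem_sphere_iff (d j m : ℕ) (x : Fin d → ℤ) :
    x ∈ sphere d (2 ^ j) (2 ^ m) ↔ ∑ i, (x i).natAbs ^ (2 ^ j) = (2 ^ m) ^ (2 ^ j) := by
  unfold sphere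
  rw [Set.mem_ofPred_eq, kPow_cast]
  norm_cast

/-- On the radii `2^m` the sphere is `{± 2^m e_i}`. -/
theorem sphere_subset (d j : ℕ) (hj : 2 ≤ j) (hd : d < 4 * 2 ^ j) (m : ℕ) :
    sphere d (2 ^ j) (2 ^ m) ⊆
      ↑((Finset.univ : Finset (Fin d × Bool)).image
        (fun q => Pi.single q.1 (if q.2 then (2 ^ m : ℤ) else (-2 ^ m : ℤ)) : Fin d × Bool →
          (Fin d → ℤ))) := by
  intro x hx
  rw [mem_sphere_iff] at hx
  obtain ⟨i, hi | hi⟩ := descent d j hj hd m x hx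
  · simp only [Finset.coe_image, Set.mem_image, Finset.coe_univ, Set.mem_univ, true_and]
    exact ⟨(i, true), by simp [hi]⟩
  · simp only [Finset.coe_image, Set.mem_image, Finset.coe_univ, Set.mem_univ, true_and]
    exact ⟨(i, false), by simp [hi]⟩

theorem sphere_finite (d j : ℕ) (hj : 2 ≤ j) (hd : d < 4 * 2 ^ j) (m : ℕ) :
    (sphere d (2 ^ j) (2 ^ m)).Finite :=
  Set.Finite.subset (Finset.finite_toSet _) (sphere_subset d j hj hd m)

theorem sphere_ncard_le (d j : ℕ) (hj : 2 ≤ j) (hd : d < 4 * 2 ^ j) (m : ℕ) :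
    (sphere d (2 ^ j) (2 ^ m)).ncard ≤ 2 * d := by
  refine (Set.ncard_le_ncard (sphere_subset d j hj hd m) (Finset.finite_toSet _)).trans ?_
  rw [Set.ncard_coe_finset]
  refine Finset.card_image_le.trans ?_
  simp [mul_comm]

theorem single_mem (d j m : ℕ) (i : Fin d) :
    (Pi.single i (2 ^ m : ℤ) : Fin d → ℤ) ∈ sphere d (2 ^ j) (2 ^ m) := by
  rw [mem_sphere_iff, Finset.sum_eq_single i]
  · simp [Int.natAbs_pow]
  · intro l _ hl
    simp [hl]
  · simp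

/-- The delta function at the origin. -/
noncomputable def delta (d : ℕ) : (Fin d → ℤ) → ℂ := fun y => if y = 0 then 1 else 0

theorem avg_delta (d j m : ℕ) (i : Fin d) :
    avg d (2 ^ j) (2 ^ m) (delta d) (Pi.single i (2 ^ m : ℤ)) =
      ((sphere d (2 ^ j) (2 ^ m)).ncard : ℂ)⁻¹ := by
  classical
  unfold avg
  have h : ∑ᶠ (x : Fin d → ℤ) (_ : x ∈ sphere d (2 ^ j) (2 ^ m)),
      delta d ((Pi.single i (2 ^ m : ℤ) : Fin d → ℤ) - x) = 1 := by
    rw [finsum_eq_single _ (Pi.single i (2 ^ m : ℤ) : Fin d → ℤ)]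
    · rw [finsum_eq_if, if_pos (single_mem d j m i)]
      simp [delta]
    · intro y hy
      rw [finsum_eq_if]
      split_ifs
      · unfold delta
        rw [if_neg]
        intro h
        exact hy (sub_eq_zero.mp h).symm
      · rfl
  rw [h, mul_one]

theorem admissible_two_pow (d j : ℕ) (hj : 2 ≤ j) (hd : d < 4 * 2 ^ j) (hd0 : 0 < d) (m : ℕ) :
    (2 ^ m : ℝ) ∈ admissible d (2 ^ j) := by
  refine ⟨by positivity, ⟨(2 ^ m) ^ (2 ^ j), by push_cast; rfl⟩, ?_⟩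
  rw [Set.ncard_pos (sphere_finite d j hj hd m)]
  exact ⟨_, single_mem d j m ⟨0, hd0⟩⟩

theorem maxFn_delta_ge (d j : ℕ) (hj : 2 ≤ j) (hd : d < 4 * 2 ^ j) (hd0 : 0 < d) (m : ℕ) :
    ((2 * d : ℕ) : ℝ≥0∞)⁻¹ ≤
      maxFn d (2 ^ j) (delta d) (Pi.single ⟨0, hd0⟩ (2 ^ m : ℤ)) := by
  have h1 : ‖avg d (2 ^ j) (2 ^ m) (delta d) (Pi.single ⟨0, hd0⟩ (2 ^ m : ℤ))‖ₑ ≤
      maxFn d (2 ^ j) (delta d) (Pi.single ⟨0, hd0⟩ (2 ^ m : ℤ)) :=
    le_iSup₂ (f := fun r (_ : r ∈ admissible d (2 ^ j)) =>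
      ‖avg d (2 ^ j) r (delta d) (Pi.single ⟨0, hd0⟩ (2 ^ m : ℤ))‖ₑ) (2 ^ m : ℝ)
      (admissible_two_pow d j hj hd hd0 m)
  refine le_trans ?_ h1
  rw [avg_delta, enorm_inv]
  · rw [ENNReal.inv_le_inv]
    have : ‖((sphere d (2 ^ j) (2 ^ m)).ncard : ℂ)‖ₑ =
        (((sphere d (2 ^ j) (2 ^ m)).ncard : ℕ) : ℝ≥0∞) := by
      rw [enorm_eq_nnnorm, Complex.nnnorm_natCast]
      simp
    rw [this]
    exact_mod_cast sphere_ncard_le d j hj hd m
  · have : 0 < (sphere d (2 ^ j) (2 ^ m)).ncard := (admissible_two_pow d j hj hd hd0 m).2.2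
    exact_mod_cast this.ne'

theorem single_injective (d : ℕ) (i : Fin d) :
    Function.Injective (fun m : ℕ => (Pi.single i (2 ^ m : ℤ) : Fin d → ℤ)) := by
  intro a b h
  have := congrFun h i
  simp only [Pi.single_eq_same] at this
  exact Int.pow_right_injective (le_refl 2) this

/-- `A_* δ_0` is not in `ℓ²`. -/
theorem maxFn_delta_tsum (d j : ℕ) (hj : 2 ≤ j) (hd : d < 4 * 2 ^ j) (hd0 : 0 < d) :
    ∑' x, maxFn d (2 ^ j) (delta d) x ^ 2 = ⊤ := by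
  have h1 := ENNReal.tsum_comp_le_tsum_of_injective (single_injective d ⟨0, hd0⟩)
    (fun x => maxFn d (2 ^ j) (delta d) x ^ 2)
  have h2 : ∑' _m : ℕ, (((2 * d : ℕ) : ℝ≥0∞)⁻¹) ^ 2 ≤
      ∑' m : ℕ, maxFn d (2 ^ j) (delta d) (Pi.single ⟨0, hd0⟩ (2 ^ m : ℤ)) ^ 2 :=
    ENNReal.tsum_le_tsum fun m => pow_le_pow_left' (maxFn_delta_ge d j hj hd hd0 m) 2
  have h3 : ∑' _m : ℕ, (((2 * d : ℕ) : ℝ≥0∞)⁻¹) ^ 2 = ⊤ := by
    apply ENNReal.tsum_const_eq_top_of_ne_zero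
    apply pow_ne_zero
    exact ENNReal.inv_ne_zero.mpr (ENNReal.natCast_ne_top _)
  rw [h3] at h2
  exact top_unique (h2.trans h1)

theorem l2norm_delta (d : ℕ) : l2norm d (fun x => ‖delta d x‖ₑ) = 1 := by
  unfold l2norm
  rw [tsum_eq_single 0]
  · simp [delta]
  · intro y hy
    simp [delta, hy]

/-- For every `k = 2^j` with `j ≥ 2` and every `2k < d < 4k`, the `k`-spherical maximal operator is
not bounded on `ℓ²(ℤ^d)`; in particular the assertion that it is bounded for all `k ≥ 2` and all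
`d > 2k` is false. -/
theorem result :
    (∀ j : ℕ, 2 ≤ j → ∀ d : ℕ, 2 * 2 ^ j < d → d < 4 * 2 ^ j → ¬ BoundedL2 d (2 ^ j)) ∧
      ¬ (∀ k : ℕ, 2 ≤ k → ∀ d : ℕ, 2 * k < d → BoundedL2 d k) := by
  have main : ∀ j : ℕ, 2 ≤ j → ∀ d : ℕ, 2 * 2 ^ j < d → d < 4 * 2 ^ j →
      ¬ BoundedL2 d (2 ^ j) := by
    intro j hj d hd1 hd2 ⟨C, hC⟩
    have hd0 : 0 < d := by omega
    have h := hC (delta d) (by rw [l2norm_delta]; exact ENNReal.one_lt_top)
    rw [l2norm_delta, mul_one] at h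
    have h2 : l2norm d (maxFn d (2 ^ j) (delta d)) = ⊤ := by
      unfold l2norm
      rw [maxFn_delta_tsum d j hj hd2 hd0]
      exact ENNReal.top_rpow_of_pos (by norm_num)
    rw [h2] at h
    exact absurd h (not_le.mpr ENNReal.coe_lt_top)
  exact ⟨main, fun h => main 2 le_rfl 9 (by norm_num) (by norm_num) (h 4 (by norm_num) 9 (by norm_num))⟩

end Pool.Agent.Results.MP_ca3f0d_an.NotBoundedPowTwo
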